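import Pool.Agent.Helper66_ML.Stmts2

/-!
# ML2, module MN1: the main theorem for `O_ℓ(G) = 1`
-/

open scoped BigOperators

noncomputable section

namespace Pool.Agent.PP.ML.H58

open Pool.Agent.Helper51_AWC Pool.Agent.Helper79_WRA Pool.Agent.PP Pool.Agent.Helper98_CC

/-- the chains for the representatives -/
def reps (ℓ : ℕ) (G : Type) [Group G] : Set (G → ℂ) :=
  {a | ∃ q : Quotient (chainSetoid ℓ G), a ∈ IrrS (stab q.out.mem)}

theorem reps_finite (ℓ : ℕ) (G : Type) [Group G] [Finite G] : (reps ℓ G).Finite := by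
  have h : reps ℓ G = ⋃ q : Quotient (chainSetoid ℓ G), IrrS (stab q.out.mem) := by
    ext a
    simp [reps]
  rw [h]
  exact Set.finite_iUnion fun q => IrrS_finite _

/-- sums of locally divisible numbers -/
theorem altF_ind {ℓ : ℕ} {G : Type} [Group G] (P : ℂ → Prop) (h0 : P 0)
    (hadd : ∀ x y, P x → P y → P (x + y)) (hneg : ∀ x, P x → P (-x)) (F : (G → ℂ) → ℂ)
    (hF : ∀ a ∈ reps ℓ G, P (F a)) : P (altF ℓ F) := by
  unfold altF
  refine finsum_induction P h0 hadd fun q => ?_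
  have h1 : P (∑ᶠ (a : G → ℂ) (_ : a ∈ IrrS (stab q.out.mem)), F a) :=
    finsum_mem_induction P h0 hadd fun a ha => hF a ⟨q, ha⟩
  rcases Nat.even_or_odd q.out.length with h | h
  · rw [h.neg_one_pow, one_mul]
    exact h1
  · rw [h.neg_one_pow, neg_one_mul]
    exact hneg _ h1

/-- `altF` is additive -/
theorem altF_add {ℓ : ℕ} {G : Type} [Group G] [Finite G] (F F' : (G → ℂ) → ℂ) :
    altF ℓ (fun a => F a + F' a) = altF ℓ F + altF ℓ F' := by
  unfold altF
  have h1 : ∀ q : Quotient (chainSetoid ℓ G),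
      ((-1 : ℂ)) ^ q.out.length * ∑ᶠ (a : G → ℂ) (_ : a ∈ IrrS (stab q.out.mem)), (F a + F' a) =
      (-1) ^ q.out.length * (∑ᶠ (a : G → ℂ) (_ : a ∈ IrrS (stab q.out.mem)), F a) +
        (-1) ^ q.out.length * ∑ᶠ (a : G → ℂ) (_ : a ∈ IrrS (stab q.out.mem)), F' a := by
    intro q
    rw [finsum_mem_add_distrib (IrrS_finite _), mul_add]
  simp_rw [h1]
  exact finsum_add_distrib (Set.toFinite _) (Set.toFinite _)

/-- only the characters of the stabilisers matter -/
theorem altF_congr {ℓ : ℕ} {G : Type} [Group G] {F F' : (G → ℂ) → ℂ}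
    (h : ∀ a ∈ reps ℓ G, F a = F' a) : altF ℓ F = altF ℓ F' := by
  unfold altF
  refine finsum_congr fun q => ?_
  congr 1
  exact finsum_mem_congr rfl fun a ha => h a ⟨q, ha⟩

theorem omega_conj {G : Type} [Group G] (a : G → ℂ) {g x : G} (h : IsConj g x) :
    omega (MonoidHom.id G) a g = omega (MonoidHom.id G) a x := by
  unfold omega
  congr 1
  refine finsum_congr fun y => ?_
  have : IsConj g ((MonoidHom.id G) y) ↔ IsConj x ((MonoidHom.id G) y) :=
    ⟨fun h' => h.symm.trans h', fun h' => h.trans h'⟩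
  simp only [this]

theorem cz_conj {G : Type} [Group G] {g x : G} (h : IsConj g x) : cz g = cz x := by
  obtain ⟨y, rfl⟩ := isConj_iff.1 h
  unfold cz
  refine Nat.card_congr ⟨fun c => ⟨y * c * y⁻¹, ?_⟩, fun c => ⟨y⁻¹ * c * y, ?_⟩, ?_, ?_⟩
  · have := c.2
    rw [Subgroup.mem_centralizer_singleton_iff] at this ⊢
    calc y * (c : G) * y⁻¹ * (y * g * y⁻¹) = y * (c * g) * y⁻¹ := by group
      _ = y * (g * c) * y⁻¹ := by rw [this]
      _ = y * g * y⁻¹ * (y * c * y⁻¹) := by group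
  · have := c.2
    rw [Subgroup.mem_centralizer_singleton_iff] at this ⊢
    calc y⁻¹ * (c : G) * y * g = y⁻¹ * (c * (y * g * y⁻¹)) * y := by group
      _ = y⁻¹ * (y * g * y⁻¹ * c) * y := by rw [this]
      _ = g * (y⁻¹ * c * y) := by group
  · intro c
    apply Subtype.ext
    simp only
    group
  · intro c
    apply Subtype.ext
    simp only
    group

/-- `DV` depends on the class only -/
theorem dv_conj (lls : LlsStmt) (ℓ : ℕ) [Fact ℓ.Prime] {G : Type} [Group G] [Finite G]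
    (hG : opCore ℓ G = ⊥) {n m : ℕ} {g x : G} (h : IsConj g x) (hd : DV ℓ n m g) :
    DV ℓ n m x := by
  intro bs hbs
  obtain ⟨r, t, h1, h2, h3⟩ := hd bs hbs
  refine ⟨r, t, ?_, h2, ?_⟩
  · rw [h1, cz_conj h]
  · have h4 : torusL ℓ (bs.map fun b => {x | IsConj b x}) g =
        torusL ℓ (bs.map fun b => {x | IsConj b x}) x := by
      have h5 : ((torusL ℓ (bs.map fun b => {x | IsConj b x}) g : ℤ) : ℂ) =
          ((torusL ℓ (bs.map fun b => {x | IsConj b x}) x : ℤ) : ℂ) := by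
        rw [lls ℓ G hG g bs, lls ℓ G hG x bs, cz_conj h]
        simp only [omega_conj _ h]
      exact_mod_cast h5
    rw [← h4]
    exact h3

theorem mn1 (lls : LlsStmt) (num : NumStmt) (alb : AlbStmt) (sel : SelStmt) (lim : LimStmt)
    (lda : LdaStmt) (ord : OrdStmt) : Mn1Stmt := by
  classical
  intro ℓ _ M _ hℓ G _ _ hG χ hχ g hg n hd
  obtain ⟨l1, l2, l3, l4, l5⟩ := lda ℓ M hℓ
  obtain ⟨E, hE, hwE⟩ := ord ℓ M hℓ _ hg
  obtain ⟨f, hf1, hf2, hf3⟩ := sel ℓ M hℓ G χ hχ
  have hLD0 : LD M (ℓ ^ n) 0 :=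
    ⟨1, 0, isIntegral_one, by rw [red_one]; exact one_ne_zero, isIntegral_zero, by simp⟩
  have hneg : ∀ x, LD M (ℓ ^ n) x → LD M (ℓ ^ n) (-x) := by
    intro x hx
    have := l3 (ℓ ^ n) x (-1) hx isIntegral_one.neg
    rwa [neg_one_mul] at this
  set h : G → ℂ := fun x => if IsConj g x then 1 else 0 with hh
  have homh : ∀ a : G → ℂ, omF h a = omega (MonoidHom.id G) a g := by
    intro a
    unfold omF omega
    congr 1
    refine finsum_congr fun x => ?_
    by_cases hx : IsConj g x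
    · have h' : IsConj g ((MonoidHom.id G) x) := hx
      rw [hh]
      simp only [if_pos hx, one_mul]
      rw [finsum_eq_if, if_pos h']
    · have h' : ¬ IsConj g ((MonoidHom.id G) x) := hx
      rw [hh]
      simp only [if_neg hx, zero_mul]
      rw [finsum_eq_if, if_neg h']
  have hcls : ∀ x y : G, h (y * x * y⁻¹) = h x := by
    intro x y
    have h1 : IsConj g (y * x * y⁻¹) ↔ IsConj g x := by
      have h2 : IsConj x (y * x * y⁻¹) := isConj_iff.2 ⟨y, rfl⟩
      exact ⟨fun h' => h'.trans h2.symm, fun h' => h'.trans h2⟩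
    simp only [hh, h1]
  have hint : ∀ x : G, IsIntegral ℤ (h x) := by
    intro x
    simp only [hh]
    split_ifs
    · exact isIntegral_one
    · exact isIntegral_zero
  set z : (G → ℂ) → ℂ := fun a => omega (MonoidHom.id G) a g ^ E * omF f a with hz
  -- the properties of `z`
  have hz1 : ∀ a ∈ reps ℓ G, IsIntegral ℤ (z a) ∧
      (labF M a = labF M χ → red M (z a) = 1) ∧ (labF M a ≠ labF M χ → red M (z a) = 0) := by
    rintro a ⟨q, ha⟩
    have i1 := omega_IrrS_integral ha g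
    obtain ⟨i2, i3, i4⟩ := hf3 q.out.mem q.out.pgroup q.out.chain a ha
    refine ⟨(i1.pow E).mul i2, fun hl => ?_, fun hl => ?_⟩
    · simp only [hz]
      rw [red_mul (i1.pow E) i2, red_pow i1, i3 hl, mul_one]
      have h1 : red M (omega (MonoidHom.id G) a g) = red M (omega (MonoidHom.id G) χ g) :=
        congrFun hl g
      rw [h1, hwE]
    · simp only [hz]
      rw [red_mul (i1.pow E) i2, i4 hl, mul_zero]
  -- a uniform exponent
  have hN : ∀ a : G → ℂ, ∃ N₀ : ℕ, a ∈ reps ℓ G → ∀ N ≥ N₀,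
      LD M (ℓ ^ n) ((if labF M a = labF M χ then 1 else 0) + -(z a ^ ℓ ^ N)) := by
    intro a
    by_cases ha : a ∈ reps ℓ G
    · obtain ⟨j1, j2, j3⟩ := hz1 a ha
      by_cases hl : labF M a = labF M χ
      · obtain ⟨N₀, hN₀⟩ := (lim ℓ M hℓ n (z a) j1).2 (j2 hl)
        refine ⟨N₀, fun _ N hN => ?_⟩
        rw [if_pos hl]
        have := hneg _ (hN₀ N hN)
        rwa [neg_sub, sub_eq_add_neg] at this
      · obtain ⟨N₀, hN₀⟩ := (lim ℓ M hℓ n (z a) j1).1 (j3 hl)
        refine ⟨N₀, fun _ N hN => ?_⟩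
        rw [if_neg hl, zero_add]
        exact hneg _ (hN₀ N hN)
    · exact ⟨0, fun h' => absurd h' ha⟩
  choose N₀ hN₀ using hN
  set N : ℕ := (reps_finite ℓ G).toFinset.sup N₀ with hNdef
  have hNle : ∀ a ∈ reps ℓ G, N₀ a ≤ N := fun a ha =>
    Finset.le_sup ((reps_finite ℓ G).mem_toFinset.2 ha)
  -- NUM
  have hlpos : 0 < ℓ ^ N := pow_pos (Fact.out : ℓ.Prime).pos _
  have hEl : 1 ≤ E * ℓ ^ N := Nat.mul_pos hE hlpos
  have h1 := num ℓ M hℓ G hG (ℓ ^ n) h
    (List.replicate (E * ℓ ^ N - 1) h ++ List.replicate (ℓ ^ N) f) hcls hint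
    (by
      intro h' hh'
      rcases List.mem_append.1 hh' with h2 | h2
      · rw [List.eq_of_mem_replicate h2]
        exact ⟨hcls, hint⟩
      · rw [List.eq_of_mem_replicate h2]
        exact ⟨hf1, hf2⟩)
    (by
      intro x hx
      have hx' : IsConj g x := by
        by_contra hc
        apply hx
        simp only [hh, if_neg hc]
      exact dv_conj lls ℓ hG hx' (hd _))
  have h2 : altF ℓ (fun a => omF h a *
      ((List.replicate (E * ℓ ^ N - 1) h ++ List.replicate (ℓ ^ N) f).map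
        fun h' => omF h' a).prod) = altF ℓ fun a => z a ^ ℓ ^ N := by
    refine altF_congr fun a _ => ?_
    rw [List.map_append, List.prod_append, List.map_replicate, List.map_replicate,
      List.prod_replicate, List.prod_replicate, ← mul_assoc, ← pow_succ',
      Nat.sub_add_cancel hEl, homh, mul_pow, ← pow_mul]
  rw [h2] at h1
  have h3 : LD M (ℓ ^ n) (altF ℓ fun a =>
      (if labF M a = labF M χ then (1 : ℂ) else 0) + -(z a ^ ℓ ^ N)) :=
    altF_ind (LD M (ℓ ^ n)) hLD0 (l1 (ℓ ^ n)) hneg _ fun a ha => hN₀ a ha N (hNle a ha)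
  have h4 := l1 _ _ _ h3 h1
  rw [← altF_add] at h4
  have h5 : altF ℓ (fun a => ((if labF M a = labF M χ then (1 : ℂ) else 0) + -(z a ^ ℓ ^ N)) +
      z a ^ ℓ ^ N) = altF ℓ fun a => if labF M a = labF M χ then (1 : ℂ) else 0 :=
    altF_congr fun a _ => by ring
  rw [h5] at h4
  have h6 : LD M (ℓ ^ n) ((altSum ℓ M χ : ℤ) : ℂ) := by
    rw [alb ℓ M hℓ G hG χ hχ]
    exact h4
  exact l5 n _ h6

end Pool.Agent.PP.ML.H58
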